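import Pool.Agent.R280.IndLim2

/-!
Every separable Banach lattice is an inductive limit of semiprojective Banach lattices.
-/

set_option autoImplicit false

open TopologicalSpace Pool.Agent.R280.BLat

universe u v

namespace Pool.Agent.Results.MP_566259_an.InductiveLimit

/-- Every separable Banach lattice `E` is (isometrically lattice isomorphic to) the inductive limit
of a sequence of semiprojective Banach lattices with contractive lattice homomorphisms as connecting
maps. -/
theorem result (E : Type u) [NormedAddCommGroup E] [NormedSpace ℝ E] [Lattice E]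
    [BanachLattice E] [SeparableSpace E] :
    ∃ (A : ℕ → Type) (_ : ∀ n, NormedAddCommGroup (A n)) (_ : ∀ n, NormedSpace ℝ (A n))
      (_ : ∀ n, Lattice (A n)) (_ : ∀ n, BanachLattice (A n)) (φ : ∀ n, A n →L[ℝ] A (n + 1)),
      (∀ n, IsSemiprojective.{0, v} (A n)) ∧ (∀ n, IsLatHom (φ n) ∧ ‖φ n‖ ≤ 1) ∧
        IsIndLimit A φ E := by
  obtain ⟨φ, hφ, h⟩ := exists_indLimit E
  refine ⟨fun _ => (FBLpos ℕ).Space, fun _ => inferInstance, fun _ => inferInstance,
    fun _ => inferInstance, fun _ => inferInstance, φ, fun _ => ?_, hφ, h⟩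
  refine isSemiprojective_of_liftable ?_
  intro B C _ _ _ _ _ _ _ _ _ Q hQ ψ hψ hψ1 ε hε
  obtain ⟨T, hT, hTQ, hTn⟩ := pos_isProjective ℕ B C Q hQ ψ hψ ε hε
  exact ⟨T, hT, hTQ, hTn.trans (mul_le_of_le_one_right (by linarith) hψ1)⟩

end Pool.Agent.Results.MP_566259_an.InductiveLimit
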